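import Pool.Agent.L7h38.LV.Col
import Pool.Agent.Y434.CI.Main

/-!
# Isotopies from level preserving diffeomorphisms of cylinders
-/

set_option autoImplicit false

open Set Filter Topology Metric Function
open scoped Manifold ContDiff

noncomputable section

namespace Pool.Agent.L7h38.LV

open Pool.Agent.Y522 Pool.Agent.Y522.NA Pool.Agent.Y434.CI

variable {k : ℕ} {X Y : Type} [TopologicalSpace X] [ChartedSpace (E k) X] [IsManifold (𝓡 k) ∞ X]
  [TopologicalSpace Y] [ChartedSpace (E k) Y] [IsManifold (𝓡 k) ∞ Y]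

/-- the second component of a level preserving diffeomorphism of cylinders -/
theorem smooth_path (Φ : Diffeomorph (𝓡 (k + 1)) (𝓡 (k + 1)) (Pr X) (Pr Y) ∞) :
    ContMDiff ((𝓘(ℝ, ℝ)).prod (𝓡 k)) (𝓡 k) ∞ (fun q : ℝ × X => (un (Φ (mk q))).2) :=
  (smooth_snd (X := Y)).comp (Φ.contMDiff.comp (smooth_mk (X := X)))

/-- the levels of a level preserving diffeomorphism of cylinders -/
theorem levels (Φ : Diffeomorph (𝓡 (k + 1)) (𝓡 (k + 1)) (Pr X) (Pr Y) ∞)
    (hl : ∀ p, (un (Φ p)).1 = (un p).1) (t : ℝ) :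
    ∃ Ψ : Diffeomorph (𝓡 k) (𝓡 k) X Y ∞, ∀ x, Ψ x = (un (Φ (mk (t, x)))).2 := by
  have hlG : ∀ q, (un (Φ.symm q)).1 = (un q).1 := by
    intro q
    have := hl (Φ.symm q)
    rw [Φ.apply_symm_apply] at this
    exact this.symm
  refine ⟨{ toFun := fun x => (un (Φ (mk (t, x)))).2
            invFun := fun y => (un (Φ.symm (mk (t, y)))).2
            left_inv := ?_
            right_inv := ?_
            contMDiff_toFun := (smooth_snd (X := Y)).comp (Φ.contMDiff.comp (smooth_lev t))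
            contMDiff_invFun :=
              (smooth_snd (X := X)).comp (Φ.symm.contMDiff.comp (smooth_lev t)) }, fun x => rfl⟩
  · intro x
    have h1 : mk (t, (un (Φ (mk (t, x)))).2) = Φ (mk (t, x)) := by
      apply un_inj
      refine Prod.ext ?_ rfl
      exact (hl (mk (t, x))).symm
    change (un (Φ.symm (mk (t, (un (Φ (mk (t, x)))).2)))).2 = x
    rw [h1, Φ.symm_apply_apply]
    rfl
  · intro y
    have h1 : mk (t, (un (Φ.symm (mk (t, y)))).2) = Φ.symm (mk (t, y)) := by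
      apply un_inj
      refine Prod.ext ?_ rfl
      exact (hlG (mk (t, y))).symm
    change (un (Φ (mk (t, (un (Φ.symm (mk (t, y)))).2)))).2 = y
    rw [h1, Φ.apply_symm_apply]
    rfl

omit [ChartedSpace (E k) X] [IsManifold (𝓡 k) ∞ X] in
/-- compact subsets of the cylinder are bounded -/
theorem bounded_height (C : Set (Pr X)) (hC : IsCompact C) :
    ∃ R : ℝ, 1 ≤ R ∧ ∀ p ∈ C, |(un p).1| < R := by
  have h2 : IsCompact ((fun p : Pr X => (un p).1) '' C) :=
    hC.image (continuous_fst.comp cont_un)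
  obtain ⟨R, hR⟩ := h2.isBounded.subset_closedBall 0
  refine ⟨|R| + 1, by linarith [abs_nonneg R], fun p hp => ?_⟩
  have h3 := hR ⟨p, hp, rfl⟩
  rw [Metric.mem_closedBall, Real.dist_eq, sub_zero] at h3
  exact (h3.trans (le_abs_self R)).trans_lt (lt_add_one _)

/-- reparametrization of the path -/
theorem smooth_repar (K : ℝ × X → Y) (hK : ContMDiff ((𝓘(ℝ, ℝ)).prod (𝓡 k)) (𝓡 k) ∞ K)
    (R : ℝ) :
    ContMDiff ((𝓘(ℝ, ℝ)).prod (𝓡 k)) (𝓡 k) ∞ (fun q : ℝ × X => K (-R + 2 * R * q.1, q.2)) := by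
  have h2 : ContMDiff 𝓘(ℝ, ℝ) 𝓘(ℝ, ℝ) ∞ (fun s : ℝ => -R + 2 * R * s) := by
    have : ContDiff ℝ ∞ (fun s : ℝ => -R + 2 * R * s) := by fun_prop
    exact this.contMDiff
  exact hK.comp ((h2.comp contMDiff_fst).prodMk contMDiff_snd)

end Pool.Agent.L7h38.LV
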